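import Mathlib
import Pool.Graph.R_seed8.Helper647.GR.ForceCH
import Pool.Graph.R_seed8.Helper647.CPP.PosSide
import Pool.Agent.KS6_77.CppS.Main

set_option linter.dupNamespace false

open Set Topology Filter Cardinal

namespace Pool.Agent.Results.MP_ba5606_gt.DiamondAlone

open Pool.Agent.Helper647.CPP

/-- Both questions Q1 and Q2 are independent of ZFC.

1. There is a notion of forcing `P` all of whose conditions force that `ω₁` is preserved, that
   diamond holds and that the continuum hypothesis holds.
2. Diamond alone gives a compact Hausdorff space `X` of cardinality `ℵ₁` which is separable,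
   Frechet-Urysohn, scattered (each nonempty subset has a relatively isolated point) and first
   countable at all points but one, with `C_p(C_p(X))` Lindelöf, such that `C_p(X)` is not
   Lindelöf and `X` is not `ω`-monolithic.
3. If every subset of `ℝ^ℕ` of cardinality at most `ℵ₁` is coanalytic, then for every compact
   Hausdorff space `X` with `C_p(C_p(X))` Lindelöf, `C_p(X)` is Lindelöf and `X` is
   `ω`-monolithic. -/
theorem result :
    (∃ (P : Type) (_ : Preorder P), Nonempty P ∧ ∀ p : P,
      p ∈ Pool.Agent.Helper647.GR.ForceCH.OmegaOnePreserved P ∧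
      p ∈ Pool.Agent.Helper647.GR.ForceCH.DiamondHolds P ∧
      p ∈ Pool.Agent.Helper647.GR.ForceCH.CHHolds P) ∧
    (Diamond →
      ∃ (X : Type) (_ : TopologicalSpace X), CompactSpace X ∧ T2Space X ∧
        TopologicalSpace.SeparableSpace X ∧ FrechetUrysohnSpace X ∧ #X = ℵ₁ ∧
        (∀ S : Set X, S.Nonempty → ∃ x ∈ S, ∃ U : Set X, IsOpen U ∧ U ∩ S = {x}) ∧
        (∃ x₀ : X, ∀ x, x ≠ x₀ → (𝓝 x).IsCountablyGenerated) ∧
        LindelofSpace (Cp (Cp X)) ∧ ¬ LindelofSpace (Cp X) ∧ ¬ OmegaMonolithic X) ∧
    (SmallSetsCoanalytic →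
      ∀ (X : Type) [TopologicalSpace X] [CompactSpace X] [T2Space X],
        LindelofSpace (Cp (Cp X)) → LindelofSpace (Cp X) ∧ OmegaMonolithic X) :=
  ⟨Pool.Agent.Helper647.GR.ForceCH.exists_forcing, Pool.Agent.KS6_77.CppS.main,
    fun hCA X _ _ _ hX => Pos.positive hCA X hX⟩

end Pool.Agent.Results.MP_ba5606_gt.DiamondAlone
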